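import Pool.Agent.H528Z.GbcEx2

/-!
Positivity fails for the Gauss-Bonnet-Chern mass: a complete asymptotically flat metric on `ℝ^6`
with `L₂ > 0`, `R > 0` and `m₂ = -5/4`. The metric is
`δ + 10 (1 + |x|²)⁻² x ⊗ x + 5 (1 + |x|²)^(-3/2) Jx ⊗ Jx` with `J` the complex structure of `ℂ³`.
-/

set_option autoImplicit false

open H528GBC

theorem Pool.Agent.Results.MP_c3d4b2_gt.NegMass.result :
    ∃ (g : E 6 → Matrix (Fin 6) (Fin 6) ℝ) (τ m : ℝ),
      ((6 : ℝ) - 4) / 3 < τ ∧ IsMetricOn Set.univ g ∧ CompleteOn Set.univ g ∧ AsympFlat g τ ∧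
      L2Integrable Set.univ g ∧ (∀ x, 0 ≤ (jet g x).L2) ∧ (∀ x, 0 ≤ (jet g x).scal) ∧
      HasMass g m ∧ m < 0 := by
  have h1 : ∀ x : E 6, 1 ≤ ex2.κ + ss x := fun x => by
    have := Fam.ss_nonneg x
    simp only [ex2]; linarith
  have hs : ∀ x : E 6, 1 ≤ √(ex2.κ + ss x) := fun x => Real.one_le_sqrt.2 (h1 x)
  refine ⟨ex2.gm, 1, _, by norm_num, ?_, ex2_ok.completeOn isClosed_univ,
    ex2_ok.asympFlat (by norm_num [ex2]) (by norm_num [ex2]) (by norm_num [ex2]),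
    ex2_ok.l2Integrable (by norm_num [ex2]) (by norm_num [ex2]) MeasurableSet.univ
      (fun x _ => h1 x) ex2L_meas ex2L_bd (fun x _ => (ex2_eval x (h1 x)).1),
    fun x => ?_, fun x => ?_, ex2_mass, by rw [ex2F_zero]; norm_num⟩
  · have : {x : E 6 | 0 < ex2.κ + ss x} = Set.univ :=
      Set.eq_univ_of_forall fun x => lt_of_lt_of_le one_pos (h1 x)
    rw [← this]; exact ex2_ok.isMetricOn
  · rw [(ex2_eval x (h1 x)).1]; exact (ex2L_pos _ (hs x)).le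
  · rw [(ex2_eval x (h1 x)).2]; exact (ex2S_pos _ (hs x)).le
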